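import Pool.Agent.H45.Lib.Ts3997aac3.Q276.PL.Stm

/-! Project PL (helper276), job R2D: a relation makes the determinants vanish. -/

set_option autoImplicit false

namespace Pool.Agent.Q94.PL

open Polynomial Pool.Agent.W223.HZ Pool.Agent.W223.PL Pool.Agent.Q276.PL

theorem eval_fin {m : ℕ} (P : ℤ[X]) (h : P.natDegree < m) (t : ℤ) :
    P.eval t = ∑ j : Fin m, t ^ (j : ℕ) * P.coeff j := by
  rw [eval_eq_sum_range' h, Finset.sum_range]
  exact Finset.sum_congr rfl fun j _ => mul_comm _ _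

theorem coeff_ne {m : ℕ} (P : ℤ[X]) (h : P.natDegree < m) (h0 : P ≠ 0) :
    ∃ j : Fin m, P.coeff j ≠ 0 :=
  ⟨⟨P.natDegree, h⟩, by
    change P.leadingCoeff ≠ 0
    exact leadingCoeff_ne_zero.2 h0⟩

theorem r2d : StmtR2D := by
  intro m T x y P Q hPQ hP hQ hT f hf
  rw [← Matrix.exists_mulVec_eq_zero_iff]
  refine ⟨Sum.elim (fun j => P.coeff j) (fun j => Q.coeff j), ?_, ?_⟩
  · intro h0
    rcases hPQ with h | h
    · obtain ⟨j, hj⟩ := coeff_ne P hP h
      exact hj (congrFun h0 (Sum.inl j))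
    · obtain ⟨j, hj⟩ := coeff_ne Q hQ h
      exact hj (congrFun h0 (Sum.inr j))
  · funext i
    have h1 := hT (f i) (hf i)
    rw [eval_fin P hP, eval_fin Q hQ, Finset.mul_sum, Finset.mul_sum] at h1
    simp only [Matrix.mulVec, dotProduct, Fintype.sum_sum_type, Mat, Sum.elim_inl, Sum.elim_inr,
      Matrix.of_apply, Pi.zero_apply]
    rw [← h1]
    congr 1
    · exact Finset.sum_congr rfl fun j _ => by ring
    · exact Finset.sum_congr rfl fun j _ => by ring

end Pool.Agent.Q94.PL
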